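import Pool.Agent.helper60.EPT.Spec

set_option autoImplicit false

namespace Pool.Agent.EPT

open D

theorem MCB (hC : Cal) (hL : CalL) (hPBC : PBC_stmt) (hRBA : RBA_stmt) (hRCG : RCG_stmt) (hRCO : RCO_stmt) (hMCS : MCS_stmt) (hEVA : EVA_stmt) (hVAR : VAR_stmt) (hTUR : TUR_stmt) : MCB_stmt := by
  obtain ⟨ev, hev, hevs⟩ := hEVA
  obtain ⟨pb1, pb2, pb3, pb4, pb5, pb6⟩ := hPBC
  obtain ⟨rcg1, rcg2, rcg3, rcg4⟩ := hRCG
  set S : D → ℕ := fun y => (y.size + 1) ^ (dd (vars y.snd)).length + y.size with hS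
  set X : D → D := fun y => ofList (dd (vars y.snd)) with hX
  have hPBS : PB S size := pb5 S size S (pb2 S) (fun x => by rw [hS]; exact Nat.le_add_left _ _)
  have hFX : ∀ f : D → D, FP f → FP fun x => X (f x) := by
    intro f hf
    have h1 : FP fun x => ofList (vars ((f x).snd)) := hC.comp (fun x => ofList (vars x)) (fun x => (f x).snd) hVAR (hC.snd f hf)
    have h2 := hL.dd (fun x => ofList (vars ((f x).snd))) h1
    simp only [toList_ofList] at h2
    exact h2
  -- the function `f` of the filter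
  have hff : FP fun v => ev (cons (cons v.snd.fst.snd (zp (X v.snd) v.fst)) v.snd.snd) := by
    have hid := hC.id
    have hs := hC.snd _ hid
    have h1 : FP fun v : D => v.snd.fst.snd := hC.snd _ (hC.fst _ hs)
    have h2 : FP fun v : D => v.snd.snd := hC.snd _ hs
    have h3 : FP fun v : D => v.fst := hC.fst _ hid
    have h4 : FP fun v : D => zp (X v.snd) v.fst := hL.zp _ _ (hFX _ hs) h3
    exact hC.comp ev _ hev (hC.cons _ _ (hC.cons _ _ h1 h4) h2)
  have hany : FP fun w => tv (∃ a ∈ (w.fst).toList,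
      (fun v : D => ev (cons (cons v.snd.fst.snd (zp (X v.snd) v.fst)) v.snd.snd)) (cons a (w.snd)) ≠ nil) :=
    hL.any _ (fun w => w.fst) (fun w => w.snd) hff (hC.fst _ hC.id) (hC.snd _ hC.id)
  set G : D → D := fun w => if w.snd.fst.fst = nil then nil else tv (∃ a ∈ (w.fst).toList,
      (fun v : D => ev (cons (cons v.snd.fst.snd (zp (X v.snd) v.fst)) v.snd.snd)) (cons a (w.snd)) ≠ nil) with hG
  have hGF : FP G := hC.cond (fun w => w.snd.fst.fst) _ (fun _ => nil)
    (hC.fst _ (hC.fst _ (hC.snd _ hC.id))) hany (hC.const nil)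
  -- the tuples
  have hf1 : FP fun y : D => cons y.fst.fst (X y) := hC.cons _ _ (hC.fst _ (hC.fst _ hC.id)) (hFX _ hC.id)
  have hf2 : RT S fun y : D => cons y.fst.fst (X y) := rcg3 size S _ hf1 hPBS
  obtain ⟨c, hc⟩ := hC.bound _ hf1
  have hPB2 : PB S fun y : D => (fun x : D => (x.fst.size + 1) ^ x.snd.toList.length + x.size) (cons y.fst.fst (X y)) := by
    have h1 : PB S fun y : D => S y + (y.size + c) ^ c := (pb3 S S _ (pb2 S) (pb4 S size c hPBS)).1
    refine pb5 S _ _ h1 ?_
    intro y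
    have h2 := hc y
    have h3 : (y.fst.fst).size ≤ y.size := (size_fst _).trans (size_fst _)
    have h4 : ((y.fst.fst).size + 1) ^ (dd (vars y.snd)).length ≤ (y.size + 1) ^ (dd (vars y.snd)).length :=
      Nat.pow_le_pow_left (Nat.add_le_add_right h3 1) _
    have h5 : S y = (y.size + 1) ^ (dd (vars y.snd)).length + y.size := rfl
    have h6 : ((X y).toList).length = (dd (vars y.snd)).length := by
      rw [hX]
      show (ofList (dd (vars y.snd))).toList.length = _
      rw [toList_ofList]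
    show ((cons y.fst.fst (X y)).fst.size + 1) ^ (cons y.fst.fst (X y)).snd.toList.length + (cons y.fst.fst (X y)).size ≤
      S y + (y.size + c) ^ c
    rw [fst_cons, snd_cons, h6, h5]
    have h7 := Nat.add_le_add h4 h2
    omega
  have htup : RT S fun y : D => tup y.fst.fst (X y) := rcg1 S _ (fun x => tup x.fst x.snd) _ hTUR hf2 hPB2
  have hidS : RT S fun y : D => y := (hRBA.1 S hPBS).1
  have hpair : RT S fun y : D => cons (tup y.fst.fst (X y)) y := (hRCO S hPBS _ _ htup hidS).1
  refine ⟨fun y => G (cons (tup y.fst.fst (X y)) y), rcg2 S G _ hGF hpair, ?_⟩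
  intro y
  rw [hMCS y]
  show (if y.fst.fst = nil then nil else tv (∃ a ∈ (tup y.fst.fst (X y)).toList,
      ev (cons (cons y.fst.snd (zp (X y) a)) y.snd) ≠ nil)) ≠ nil ↔ _
  by_cases h0 : y.fst.fst = nil
  · rw [if_pos h0]
    constructor
    · intro h
      exact absurd rfl h
    · intro h
      exact absurd h0 h.1
  · rw [if_neg h0, tv_ne_nil]
    constructor
    · rintro ⟨a, ha, hb⟩
      exact ⟨h0, a, ha, (hevs _ _ _).mp hb⟩
    · rintro ⟨_, a, ha, hb⟩
      exact ⟨a, ha, (hevs _ _ _).mpr hb⟩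

end Pool.Agent.EPT
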